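import Mathlib
import Pool.Agent.BSP.Main
import Pool.Agent.BSP.RW

/-!
Benjamini-Schramm: infinitely many infinite clusters at `p = 1/2` on bounded degree transient
triangulations of an open disk.
-/

set_option autoImplicit false

open MeasureTheory

namespace Pool.Agent.Results.MP_bf3baf_pr.InfinitelyManyClusters

/-- `G` together with the set `T` of its faces (each face is given by its set of three vertices) is
a triangulation of an open disk, in combinatorial form: `G` is an infinite connected graph, the
faces are triangles of `G`, every edge lies on exactly two faces, the link of every vertex is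
connected (so, when degrees are finite, it is a cycle: the complex is a surface without boundary),
and every closed walk of `G` can be contracted to a constant walk by inserting and deleting
back-and-forth steps `a b a` and by replacing one side of a face by the two other sides and
conversely (the surface is simply connected, hence, being non compact, homeomorphic to the open
disk). -/
structure DiskTriangulation {V : Type} (G : SimpleGraph V) (T : Set (Finset V)) : Prop where
  infinite : Infinite V
  connected : G.Connected
  card_face : ∀ t ∈ T, t.card = 3
  adj_face : ∀ t ∈ T, ∀ u ∈ t, ∀ v ∈ t, u ≠ v → G.Adj u v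
  two_faces : ∀ u v : V, G.Adj u v → {t : Finset V | t ∈ T ∧ u ∈ t ∧ v ∈ t}.ncard = 2
  link_connected : ∀ v : V, ((SimpleGraph.fromRel
        (fun a b : V => ∃ t ∈ T, v ∈ t ∧ a ∈ t ∧ b ∈ t)).induce (G.neighborSet v)).Connected
  simply_connected : ∀ (l : List V) (x : V), l.head? = some x → l.getLast? = some x →
      (∀ (i : ℕ) (a b : V), l[i]? = some a → l[i+1]? = some b → G.Adj a b) →
       Relation.EqvGen (fun l₁ l₂ : List V =>
          (∃ (p q : List V) (a b : V), G.Adj a b ∧ l₁ = p ++ a :: q ∧
              l₂ = p ++ a :: b :: a :: q) ∨
          (∃ (p q : List V) (a b c : V), (∃ t ∈ T, a ∈ t ∧ b ∈ t ∧ c ∈ t) ∧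
              a ≠ b ∧ b ≠ c ∧ a ≠ c ∧ l₁ = p ++ a :: c :: q ∧
              l₂ = p ++ a :: b :: c :: q)) l [x]

/-- All degrees of `G` are bounded by one integer. -/
def BoundedDegree {V : Type} (G : SimpleGraph V) : Prop :=
  ∃ D : ℕ, ∀ v : V, (G.neighborSet v).encard ≤ (D : ℕ∞)

open Classical in
/-- `walkProb G o n x` is the probability that simple random walk on `G` started at `x` (at each
step it jumps to a uniformly chosen neighbour) is at `o` after `n` steps. -/
noncomputable def walkProb {V : Type} (G : SimpleGraph V) (o : V) : ℕ → V → ℝ
  | 0, x => if x = o then 1 else 0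
  | n + 1, x => (∑ᶠ w ∈ G.neighborSet x, walkProb G o n w) / ((G.neighborSet x).ncard : ℝ)

/-- Simple random walk on `G` is transient: for some vertex `o` the expected number of visits to
`o` of the walk started at `o`, the sum over `n` of the `n`-step return probabilities, is finite. -/
def TransientWalk {V : Type} (G : SimpleGraph V) : Prop :=
  ∃ o : V, Summable (fun n : ℕ => walkProb G o n o)

/-- The law of Bernoulli site percolation with `p = 1/2`: the vertices are independently open
(`true`) or closed (`false`), each with probability `1/2`. -/
noncomputable def fairCoins (V : Type) : Measure (V → Bool) :=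
  Measure.infinitePi (fun _ : V => (PMF.uniformOfFintype Bool).toMeasure)

/-- The set of the infinite clusters of the configuration `ω`: the connected components with
infinitely many vertices of the subgraph of `G` induced by the open vertices. -/
def infiniteClusters {V : Type} (G : SimpleGraph V) (ω : V → Bool) :
    Set (G.induce {v | ω v = true}).ConnectedComponent :=
  {c | c.supp.Infinite}

theorem walkProb_eq {V : Type} (G : SimpleGraph V) (o : V) (n : ℕ) :
    walkProb G o n = Pool.BSP.RW.srw G o n := by
  induction n with
  | zero => rfl
  | succ n ih =>
    funext x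
    show (∑ᶠ w ∈ G.neighborSet x, walkProb G o n w) / ((G.neighborSet x).ncard : ℝ) =
      (∑ᶠ w ∈ G.neighborSet x, Pool.BSP.RW.srw G o n w) / ((G.neighborSet x).ncard : ℝ)
    rw [ih]

/-- Site percolation with `p = 1/2` on the 1-skeleton of a bounded degree, transient triangulation
of an open disk has almost surely infinitely many infinite clusters. -/
theorem result (V : Type) (G : SimpleGraph V) (T : Set (Finset V))
    (hT : DiskTriangulation G T) (hdeg : BoundedDegree G) (htr : TransientWalk G) :
    ∀ᵐ ω ∂(fairCoins V), (infiniteClusters G ω).Infinite := by
  refine Pool.Agent.BSP.main V G T hT.infinite hT.connected hdeg hT.card_face hT.adj_face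
    hT.two_faces hT.link_connected hT.simply_connected ?_
  refine Pool.BSP.RW.flow_of_transient G hT.infinite hT.connected hdeg ?_
  obtain ⟨o, ho⟩ := htr
  refine ⟨o, ?_⟩
  simpa only [walkProb_eq] using ho

end Pool.Agent.Results.MP_bf3baf_pr.InfinitelyManyClusters
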